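import Pool.Agent.EGH2.Lex2
import Pool.Agent.EGH2.TauL

/-!
# The lex segments at the start of a window
-/

set_option autoImplicit false

namespace Pool.Agent.EGH10

open Pool.Agent.EGH2

theorem M_std {n : ℕ} {s : ℕ → ℕ} (hs : Monotone s) {t e q : ℕ} (he : 1 ≤ e) (hes : e ≤ s t)
    (htn : t < n) (hq : q < n) (htq : t ≤ q) : Lex2_M n s t e q ∈ stdF n n s (sg s t + e) := by
  refine Lex2_mem_stdF.2 ⟨Lex2_M_sum he htn hq, fun i _ => ?_⟩
  rw [Lex2_M_apply]
  by_cases h1 : i.val < t
  · rw [if_pos h1, if_neg (by omega), if_neg (by omega)]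
    omega
  · rw [if_neg h1]
    by_cases h2 : i.val = t
    · rw [if_pos h2, h2]
      split_ifs <;> omega
    · rw [if_neg h2]
      have h3 : s t ≤ s i.val := hs (by omega)
      split_ifs <;> omega

theorem cntE {n : ℕ} {s : ℕ → ℕ} (hs : Monotone s) {a t : ℕ} (hst : 1 ≤ s t)
    (ha : a + t ≤ n) {m : Fin n →₀ ℕ}
    (hm : m ∈ stdF n n s (sg s (t + 1))) (hma : (geF n n s (sg s (t + 1)) m).card = a) :
    2 * (∑ w ∈ geF n n s (sg s (t + 1)) m, upc n n s w) + 2 * (a * (t + 1))
      + (a - 1) * (a - 1 - 1) ≤ 2 * (a * n) := by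
  classical
  have hd : sg s (t + 1) = sg s t + s t := sg_succ s t
  have ha1 : 1 ≤ a := by
    rw [← hma]
    exact Finset.card_pos.2 ⟨m, Lex2_mem_geF.2 ⟨hm, Or.inl rfl⟩⟩
  have htn : t < n := by omega
  set e := s t with he
  rw [hd] at hm hma ⊢
  set T : Finset (Fin n →₀ ℕ) := (Finset.range a).image (fun k => Lex2_M n s t e (t + k)) with hT
  have hinj : Set.InjOn (fun k => Lex2_M n s t e (t + k)) (Finset.range a : Set ℕ) := by
    intro k hk k' hk' hkk
    have hk1 : k < a := Finset.mem_range.1 (Finset.mem_coe.1 hk)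
    have hk2 : k' < a := Finset.mem_range.1 (Finset.mem_coe.1 hk')
    rcases lt_trichotomy k k' with h | h | h
    · have h1 := Lex2_M_gt (n := n) (s := s) (t := t) (e := e) (p := t + k) (q := t + k')
        (by omega) (by omega)
      simp only at hkk
      rw [hkk] at h1
      exact absurd h1 (Lex2_irrefl _)
    · exact h
    · have h1 := Lex2_M_gt (n := n) (s := s) (t := t) (e := e) (p := t + k') (q := t + k)
        (by omega) (by omega)
      simp only at hkk
      rw [hkk] at h1
      exact absurd h1 (Lex2_irrefl _)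
  have hTcard : T.card = a := by
    rw [hT, Finset.card_image_of_injOn hinj, Finset.card_range]
  have hTeq : T = geF n n s (sg s t + e) m := by
    have hlast : Lex2_M n s t e (t + (a - 1)) ∈ geF n n s (sg s t + e) m := by
      refine Lex2_mem_geF.2 ⟨M_std hs hst le_rfl htn (by omega) (by omega), ?_⟩
      rcases Lex2_tri (Lex2_M n s t e (t + (a - 1))) m with h | h | h
      · exact Or.inr h
      · exact Or.inl h
      · exfalso
        have hsub : geF n n s (sg s t + e) m ⊆
            (Finset.range (a - 1)).image (fun k => Lex2_M n s t e (t + k)) := by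
          intro w hw
          obtain ⟨h1, h2⟩ := Lex2_mem_geF.1 hw
          have h3 : LexGT w (Lex2_M n s t e (t + (a - 1))) := by
            rcases h2 with h2 | h2
            · rw [h2]
              exact h
            · exact Lex2_trans h2 h
          obtain ⟨p, hp1, hp2, hp3⟩ := Lex2_claim hst htn h1 (by omega) h3
          refine Finset.mem_image.2 ⟨p - t, Finset.mem_range.2 (by omega), ?_⟩
          rw [hp3]
          congr 1
          omega
        have h4 := (Finset.card_le_card hsub).trans Finset.card_image_le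
        rw [Finset.card_range] at h4
        omega
    apply Finset.eq_of_subset_of_card_le
    · intro w hw
      obtain ⟨k, hk, rfl⟩ := Finset.mem_image.1 hw
      have hk' := Finset.mem_range.1 hk
      refine Lex2_mem_geF.2 ⟨M_std hs hst le_rfl htn (by omega) (by omega), ?_⟩
      rcases Nat.lt_or_ge k (a - 1) with h | h
      · right
        have h1 : LexGT (Lex2_M n s t e (t + k)) (Lex2_M n s t e (t + (a - 1))) :=
          Lex2_M_gt (by omega) (by omega)
        rcases (Lex2_mem_geF.1 hlast).2 with h2 | h2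
        · rw [← h2]
          exact h1
        · exact Lex2_trans h1 h2
      · have h1 : k = a - 1 := by omega
        rw [h1]
        exact (Lex2_mem_geF.1 hlast).2
    · rw [hTcard, hma]
  rw [← hTeq, hT, Finset.sum_image hinj]
  obtain ⟨b, rfl⟩ : ∃ b, a = b + 1 := ⟨a - 1, by omega⟩
  rw [Finset.sum_range_succ']
  have h0 : upc n n s (Lex2_M n s t e (t + 0)) ≤ n - (t + 1) := by
    have h1 := upc_le (M_std (n := n) (q := t + 0) hs hst le_rfl htn (by omega) (by omega))
    have h2 : t + 1 ≤ tau s n (sg s t + e) := le_tau (by rw [sg_succ]) (by omega)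
    omega
  have hbound : ∑ k ∈ Finset.range b, upc n n s (Lex2_M n s t e (t + (k + 1))) ≤
      ∑ k ∈ Finset.range b, (n - (t + 1 + k)) := by
    apply Finset.sum_le_sum
    intro k hk
    have hk' := Finset.mem_range.1 hk
    have h1 := Lex2_M_upc (n := n) (s := s) (t := t) (e := e) (q := t + (k + 1)) (by omega)
    omega
  have hg := Lex2_gauss n (t + 1) b (by omega)
  rw [Nat.add_sub_cancel]
  have e1 : 2 * b * (t + 1) = 2 * (b * (t + 1)) := by ring
  have e2 : 2 * b * n = 2 * (b * n) := by ring
  rw [e1, e2] at hg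
  have e3 : (b + 1) * (t + 1) = b * (t + 1) + (t + 1) := by ring
  have e4 : (b + 1) * n = b * n + n := by ring
  rw [e3, e4]
  omega

end Pool.Agent.EGH10
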