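import Pool.Agent.EGH10.MainE
import Pool.Agent.EGH10.LexE
import Pool.Agent.EGH2.Fin3

/-!
# The final statement
-/

set_option autoImplicit false

namespace Pool.Agent.EGH10

open MvPolynomial Pool.Agent.EGH2

theorem qd_a {k : Type} [Field k] {n c : ℕ} {f : Fin c → MvPolynomial (Fin n) k} {e : ℕ}
    {J : Ideal (MvPolynomial (Fin n) k)} (hfJ : ∀ i, f i ∈ J) {a : ℕ}
    (ha : hd J e = hd (pI f c) e + a) : qd (pI f c) (Je J e) = a := by
  have hIJ : pI f c ≤ J := pI_le fun i _ => hfJ i
  have := qd_Je hIJ e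
  omega

theorem fin1 {k : Type} [Field k] {n c : ℕ} (hc : c ≤ n) {s : ℕ → ℕ}
    (hs : Monotone s) {f : Fin c → MvPolynomial (Fin n) k} (hf : CI s f) {e : ℕ}
    (hbig : ∀ i, c ≤ i → e + 1 ≤ s i) {J : Ideal (MvPolynomial (Fin n) k)}
    (hfJ : ∀ i, f i ∈ J) {a : ℕ} (ha : hd J e = hd (pI f c) e + a) {t : ℕ} (hat : a + t ≤ n)
    (ht : tau s n e = t) (h1 : sg s t < e) (h2 : e < sg s (t + 1)) :
    ∀ m ∈ stdF n n s e, (geF n n s e m).card = a →
      ∑ w ∈ geF n n s e m, upc n n s w
        ≤ qd (pI f c) (S1 k n * Je J e) + (dl s n a e - 1) := by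
  intro m hm hmc
  have hJe : Je J e ≤ homogeneousSubmodule (Fin n) k e := inf_le_right
  have h4 := cntB hs h1 h2 hat hm hmc
  have h5 := redE hc hs hf hbig (Je J e) hJe (qd_a hfJ ha)
  rw [ht] at h5
  have e1 : 2 * a * t = 2 * (a * t) := by ring
  have e2 : 2 * a * n = 2 * (a * n) := by ring
  rw [e1, e2] at h4
  omega

theorem fin2 {k : Type} [Field k] {n c : ℕ} (hc : c ≤ n) {s : ℕ → ℕ}
    (hs : Monotone s) {f : Fin c → MvPolynomial (Fin n) k} (hf : CI s f) {t e : ℕ}
    (he : sg s (t + 1) = e)
    (hbig : ∀ i, c ≤ i → e + 1 ≤ s i) {J : Ideal (MvPolynomial (Fin n) k)}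
    (hfJ : ∀ i, f i ∈ J) {a : ℕ} (ha : hd J e = hd (pI f c) e + a)
    (hat : a + t ≤ n) (hst : 1 ≤ s t) (ht : tau s n e = t + 1) :
    ∀ m ∈ stdF n n s e, (geF n n s e m).card = a →
      ∑ w ∈ geF n n s e m, upc n n s w
        ≤ qd (pI f c) (S1 k n * Je J e) + (dl s n a e - 1 + (a - 1)) := by
  intro m hm hmc
  have hJe : Je J e ≤ homogeneousSubmodule (Fin n) k e := inf_le_right
  have h4 : 2 * (∑ w ∈ geF n n s e m, upc n n s w) + 2 * (a * (t + 1))
      + (a - 1) * (a - 1 - 1) ≤ 2 * (a * n) := by
    subst he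
    exact cntE hs hst hat hm hmc
  have h5 := redE hc hs hf hbig (Je J e) hJe (qd_a hfJ ha)
  rw [ht] at h5
  have h6 : a * (a - 1) ≤ (a - 1) * (a - 1 - 1) + 2 * (a - 1) := by
    rcases Nat.eq_zero_or_pos a with h | h
    · subst h; simp
    · obtain ⟨b, rfl⟩ : ∃ b, a = b + 1 := ⟨a - 1, by omega⟩
      rw [Nat.add_sub_cancel]
      rcases Nat.eq_zero_or_pos b with h | h
      · subst h; simp
      · obtain ⟨b', rfl⟩ : ∃ b', b = b' + 1 := ⟨b - 1, by omega⟩
        rw [Nat.add_sub_cancel]
        apply le_of_eq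
        ring
  omega

theorem fin3 {k : Type} [Field k] {n c : ℕ} (hc : c ≤ n) {s : ℕ → ℕ}
    (hs : Monotone s) {f : Fin c → MvPolynomial (Fin n) k} (hf : CI s f) {e : ℕ}
    (hbig : ∀ i, c ≤ i → e + 1 ≤ s i) {J : Ideal (MvPolynomial (Fin n) k)}
    (hfJ : ∀ i, f i ∈ J) {a : ℕ} (ha : hd J e = hd (pI f c) e + a) :
    ∀ m ∈ stdF n n s e, (geF n n s e m).card = a →
      ∑ w ∈ geF n n s e m, upc n n s w
        ≤ qd (pI f c) (S1 k n * Je J e) + (dl s n a e - 1 + a * (a - 1) / 2) := by
  classical
  intro m hm hmc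
  have hJe : Je J e ≤ homogeneousSubmodule (Fin n) k e := inf_le_right
  have h5 := redE hc hs hf hbig (Je J e) hJe (qd_a hfJ ha)
  have h6 : ∑ w ∈ geF n n s e m, upc n n s w ≤ ∑ w ∈ geF n n s e m, (n - tau s n e) := by
    apply Finset.sum_le_sum
    intro w hw
    have h7 : w ∈ stdF n n s e := by
      unfold geF at hw
      exact (Finset.mem_filter.1 hw).1
    have := upc_le h7
    omega
  rw [Finset.sum_const, hmc, smul_eq_mul] at h6
  have h8 : a * (n - tau s n e) + a * tau s n e = a * n := by
    rw [← mul_add]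
    congr 1
    have := tau_le s n e
    omega
  have h9 : 2 * (a * (a - 1) / 2) = a * (a - 1) := by
    apply Nat.mul_div_cancel'
    exact (Nat.even_mul_pred_self a).two_dvd
  omega

/-- degree zero: the defect is at most one -/
theorem deg_zero {k : Type} [Field k] {n : ℕ} {I J : Ideal (MvPolynomial (Fin n) k)} {a : ℕ}
    (ha : hd J 0 = hd I 0 + a) : a ≤ 1 := by
  classical
  have h1 := hd_le_card J 0
  have h2 : (Finset.finsuppAntidiag (Finset.univ : Finset (Fin n)) 0).card ≤ 1 := by
    simp
  omega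

/-- the number of further sums reached within `j` steps -/
def NN {c : ℕ} (D : Fin c → ℕ) (t d j : ℕ) : ℕ :=
  (Finset.univ.filter (fun u : Fin c => t ≤ u.val ∧
    ∑ i : Fin c with i.val < u.val + 1, (D i - 1) ≤ d + j)).card

theorem tau_le_NN {n c : ℕ} {D : Fin c → ℕ} (B t d j : ℕ) (hB : d + j < B) :
    tau (sx D B) n (d + j) ≤ t + NN D t d j := by
  set T := tau (sx D B) n (d + j) with hT
  have h1 : sg (sx D B) T ≤ d + j := sg_tau_le _ _ _
  have hTc : T ≤ c := by
    by_contra hcon
    push Not at hcon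
    have h2 := sg_mono (sx D B) (show c + 1 ≤ T by omega)
    rw [sg_succ] at h2
    have h3 := sx_ge (D := D) B c le_rfl
    omega
  have h4 : Finset.Ico t T ⊆ (Finset.univ.filter (fun u : Fin c => t ≤ u.val ∧
      ∑ i : Fin c with i.val < u.val + 1, (D i - 1) ≤ d + j)).image (fun u => u.val) := by
    intro u hu
    rw [Finset.mem_Ico] at hu
    refine Finset.mem_image.2 ⟨⟨u, by omega⟩,
      Finset.mem_filter.2 ⟨Finset.mem_univ _, hu.1, ?_⟩, rfl⟩
    simp only
    rw [← sg_sx D B (u + 1) (by omega)]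
    exact (sg_mono _ (by omega)).trans h1
  have h5 := (Finset.card_le_card h4).trans Finset.card_image_le
  rw [Nat.card_Ico] at h5
  unfold NN
  omega

/-- the number of steps is at most `⌈j / r⌉` -/
theorem NN_le {c : ℕ} {D : Fin c → ℕ} (hD : ∀ i, 1 ≤ D i) {t d : ℕ}
    (h2 : t < c → d < ∑ i : Fin c with i.val < t + 1, (D i - 1)) {r : ℕ} (hr : 1 ≤ r)
    (hrD : ∀ i : Fin c, t ≤ i.val → r + 1 ≤ D i) (j : ℕ) :
    NN D t d j ≤ (j + r - 1) / r := by
  unfold NN
  have h4 : (Finset.univ.filter (fun u : Fin c => t ≤ u.val ∧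
      ∑ i : Fin c with i.val < u.val + 1, (D i - 1) ≤ d + j)).card
      ≤ (Finset.range ((j + r - 1) / r)).card := by
    apply Finset.card_le_card_of_injOn (fun u => u.val - t)
    · intro u hu
      have hu' := (Finset.mem_filter.1 (Finset.mem_coe.1 hu)).2
      obtain ⟨hu1, hu2⟩ := hu'
      have huc := u.isLt
      have h5 : ∀ v, t ≤ v → v < c → (∑ i : Fin c with i.val < t + 1, (D i - 1)) + (v - t) * r
          ≤ ∑ i : Fin c with i.val < v + 1, (D i - 1) := by
        intro v hv
        induction v, hv using Nat.le_induction with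
        | base => intro _; simp
        | succ v hv ih =>
          intro hvc
          have h6 := ih (by omega)
          rw [← sg_sx D 0 (v + 1) (by omega)] at h6
          rw [← sg_sx D 0 (v + 1 + 1) (by omega), sg_succ (sx D 0) (v + 1)]
          have h7 := sx_lt hD 0 ⟨v + 1, hvc⟩
          have h8 := hrD ⟨v + 1, hvc⟩ (by simp only; omega)
          simp only at h7
          have h9 : (v + 1 - t) * r = (v - t) * r + r := by
            have : v + 1 - t = (v - t) + 1 := by omega
            rw [this]; ring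
          rw [h9]
          omega
      have h6 := h5 u.val hu1 huc
      have h7 := h2 (by omega)
      have h8 : (u.val - t) * r < j := by omega
      refine Finset.mem_coe.2 (Finset.mem_range.2 ?_)
      by_contra hcon
      push Not at hcon
      have h9 : (j + r - 1) / r * r ≤ (u.val - t) * r := Nat.mul_le_mul_right r hcon
      have h10 := Nat.div_add_mod (j + r - 1) r
      have h11 := Nat.mod_lt (j + r - 1) (show r > 0 by omega)
      have h12 : r * ((j + r - 1) / r) = (j + r - 1) / r * r := by ring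
      omega
    · intro u hu v hv huv
      have hu' := (Finset.mem_filter.1 (Finset.mem_coe.1 hu)).2
      have hv' := (Finset.mem_filter.1 (Finset.mem_coe.1 hv)).2
      simp only at huv
      apply Fin.ext
      omega
  rwa [Finset.card_range] at h4

theorem linear_error {k : Type} [Field k] {n c : ℕ} (hc : c ≤ n) {D : Fin c → ℕ}
    (hD : ∀ t, 1 ≤ D t) (hmono : Monotone D) (J : Ideal (MvPolynomial (Fin n) k))
    (f : Fin c → MvPolynomial (Fin n) k) (hfJ : ∀ t, f t ∈ J)
    (hfD : ∀ t, (f t).IsHomogeneous (D t))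
    (hreg : RingTheory.Sequence.IsRegular (MvPolynomial (Fin n) k) (List.ofFn f))
    (d a : ℕ) (ha : hd J d = hd (Ideal.span (Set.range f)) d + a)
    (t : ℕ) (htc : t ≤ c) (h1 : ∑ i : Fin c with i.val < t, (D i - 1) ≤ d)
    (h2 : t < c → d < ∑ i : Fin c with i.val < t + 1, (D i - 1)) (E : ℕ)
    (hE : E = ∑ j ∈ Finset.range a, NN D t d j - 1) :
    ∃ L : Ideal (MvPolynomial (Fin n) k),
      (∃ M : Set (Fin n →₀ ℕ), L = Ideal.span ((fun w => monomial w (1 : k)) '' M)) ∧
      (∀ u v : Fin n →₀ ℕ, ∑ t, u t = ∑ t, v t →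
          (∃ t, (∀ i, i < t → v i = u i) ∧ v t < u t) →
          monomial v (1 : k) ∈ L → monomial u (1 : k) ∈ L) ∧
      hd (L + Ideal.span (Set.range fun t : Fin c => X (Fin.castLE hc t) ^ D t)) d = hd J d ∧
      hd (L + Ideal.span (Set.range fun t : Fin c => X (Fin.castLE hc t) ^ D t)) (d + 1)
        ≤ hd J (d + 1) + (E + a * (a - 1) / 2) ∧
      (∑ i : Fin c with i.val < t, (D i - 1) < d → a + t ≤ n →
        hd (L + Ideal.span (Set.range fun t : Fin c => X (Fin.castLE hc t) ^ D t)) (d + 1)
          ≤ hd J (d + 1) + E) ∧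
      (∑ i : Fin c with i.val < t, (D i - 1) = d → a + t ≤ n + 1 →
        hd (L + Ideal.span (Set.range fun t : Fin c => X (Fin.castLE hc t) ^ D t)) (d + 1)
          ≤ hd J (d + 1) + (E + (a - 1))) := by
  set B := d + 1 + a with hB
  have hs := sx_mono hmono B
  have hf : CI (sx D B) f := mkCI hD hfD hreg B
  have hbig : ∀ i, c ≤ i → d + 1 ≤ sx D B i := fun i hi => le_trans (by omega) (sx_ge B i hi)
  have ha' : hd J d = hd (pI f c) d + a := by rw [pI_eq_range]; exact ha
  have e0 : sg (sx D B) t = ∑ i : Fin c with i.val < t, (D i - 1) := sg_sx D B t htc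
  have e2 : d < sg (sx D B) (t + 1) := by
    rcases Nat.lt_or_ge t c with h | h
    · rw [sg_sx D B (t + 1) h]
      exact h2 h
    · have := sx_ge (D := D) B t h
      rw [sg_succ]
      omega
  have hta : tau (sx D B) n d = t := tau_eq (by rw [e0]; exact h1) (by omega) (Or.inr e2)
  have hdl : dl (sx D B) n a d - 1 ≤ E := by
    rw [hE]
    apply Nat.sub_le_sub_right
    unfold dl
    apply Finset.sum_le_sum
    intro j hj
    rw [Finset.mem_range] at hj
    have := tau_le_NN (n := n) (D := D) B t d j (by omega)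
    rw [hta]
    omega
  have key : ∃ F : ℕ, (∀ m ∈ stdF n n (sx D B) d, (geF n n (sx D B) d m).card = a →
      ∑ w ∈ geF n n (sx D B) d m, upc n n (sx D B) w
        ≤ qd (pI f c) (S1 k n * Je J d) + F) ∧ F ≤ E + a * (a - 1) / 2 ∧
      (∑ i : Fin c with i.val < t, (D i - 1) < d → a + t ≤ n → F ≤ E) ∧
      (∑ i : Fin c with i.val < t, (D i - 1) = d → a + t ≤ n + 1 → F ≤ E + (a - 1)) := by
    have h3 := fin3 hc hs hf hbig hfJ ha'
    by_cases ha1 : a ≤ 1
    · refine ⟨_, h3, by omega, ?_, ?_⟩
      · intro _ _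
        interval_cases a <;> simp_all
      · intro _ _
        interval_cases a <;> simp_all
    · have hle : a - 1 ≤ a * (a - 1) / 2 := by
        rw [Nat.le_div_iff_mul_le (by norm_num), mul_comm a (a - 1)]
        exact Nat.mul_le_mul_left _ (by omega)
      rcases Nat.lt_or_ge (∑ i : Fin c with i.val < t, (D i - 1)) d with h4 | h4
      · by_cases h5 : a + t ≤ n
        · refine ⟨_, fin1 hc hs hf hbig hfJ ha' h5 hta (by rw [e0]; exact h4) e2, by omega, ?_, ?_⟩
          · intro _ _
            exact hdl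
          · intro h6 _
            omega
        · refine ⟨_, h3, by omega, ?_, ?_⟩
          · intro _ h6
            exact absurd h6 h5
          · intro h6 _
            omega
      · have h5 : ∑ i : Fin c with i.val < t, (D i - 1) = d := le_antisymm h1 h4
        by_cases h6 : a + t ≤ n + 1
        · have hd0 : d ≠ 0 := by
            intro hd0
            rw [hd0] at ha
            have := deg_zero ha
            omega
          obtain ⟨t', rfl⟩ : ∃ t', t = t' + 1 := by
            refine ⟨t - 1, ?_⟩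
            rcases Nat.eq_zero_or_pos t with h7 | h7
            · exfalso
              apply hd0
              rw [← h5, h7]
              simp
            · omega
          have hst : 1 ≤ sx D B t' := by
            by_contra hcon
            push Not at hcon
            apply hd0
            rw [← h5, ← e0]
            unfold sg
            apply Finset.sum_eq_zero
            intro i hi
            rw [Finset.mem_range] at hi
            have := hs (show i ≤ t' by omega)
            omega
          refine ⟨_, fin2 hc hs hf (e0.trans h5) hbig hfJ ha' (by omega) hst hta,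
            by omega, ?_, ?_⟩
          · intro h7 _
            omega
          · intro _ _
            omega
        · refine ⟨_, h3, by omega, ?_, ?_⟩
          · intro h7 _
            omega
          · intro _ h7
            exact absurd h7 h6
  obtain ⟨F, hF, hF1, hF2, hF3⟩ := key
  obtain ⟨L, hL1, hL2, hL3, hL4⟩ := final_form hc hD J f hfJ hfD hreg d a ha B F (by omega) hF
  refine ⟨L, hL1, hL2, hL3, by omega, ?_, ?_⟩
  · intro h3 h4
    have := hF2 h3 h4
    omega
  · intro h3 h4
    have := hF3 h3 h4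
    omega

end Pool.Agent.EGH10
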