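import Pool.Agent.EGH2.MainB
import Pool.Agent.EGH2.Ext

/-!
# The growth bound with the sum of the `tau (d + j)`
-/

set_option autoImplicit false

namespace Pool.Agent.EGH10

open MvPolynomial Pool.Agent.EGH2

theorem tau_mono (s : ℕ → ℕ) (n : ℕ) : Monotone (tau s n) := by
  intro d e hde
  exact le_tau ((sg_tau_le s n d).trans hde) (tau_le s n d)

theorem mainD {K : Type} [Field K] [IsAlgClosed K] (n : ℕ) : ∀ {s : ℕ → ℕ}, Monotone s →
    ∀ {f : Fin n → MvPolynomial (Fin n) K}, CI s f → ∀ (a : ℕ) {d : ℕ}
    (V : Submodule K (MvPolynomial (Fin n) K)), V ≤ homogeneousSubmodule (Fin n) K d →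
    qd (pI f n) V = a →
    2 * (a * n) ≤ 2 * qd (pI f n) (S1 K n * V) + 2 * ∑ j ∈ Finset.range a, tau s n (d + j)
      + a * (a - 1) := by
  induction n with
  | zero =>
    intro s hs f hf a d V hV hq
    simp
  | succ n ih =>
    intro s hs f hf a
    induction a using Nat.strong_induction_on with
    | _ a iha =>
    intro d V hV hq
    rcases Nat.eq_zero_or_pos a with ha0 | ha0
    · subst ha0
      simp
    obtain ⟨b, rfl⟩ : ∃ b, a = b + 1 := ⟨a - 1, by omega⟩
    rcases zd_cases (pI f (n + 1)) V hV with hz | ⟨l, hl, hl0, X, W, hXV, hX, hW, hX0, h1, h2, h3⟩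
    · have h5 := zdf_growth hs hf b V hV hz hq
      have h6 : ∑ j ∈ Finset.range b, (j + 1 + tau s (n + 1) (d + (j + 1)))
          ≤ ∑ j ∈ Finset.range b, (j + 1) +
            ∑ j ∈ Finset.range (b + 1), tau s (n + 1) (d + j) := by
        rw [Finset.sum_add_distrib, Finset.sum_range_succ' _ b]
        omega
      have h7 : (b + 1) * (b + 1 - 1) = 2 * ∑ j ∈ Finset.range b, (j + 1) := by
        rw [sum_id, Nat.add_sub_cancel]; ring
      have h8 : (b + 1) * (n + 1) = (n + 1) * (b + 1) := by ring
      rw [h7, h8]
      omega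
    · by_cases hX2 : qd (pI f (n + 1)) X = qd (pI f (n + 1)) V
      · obtain ⟨hs0, g, V', hg, hV', hq', hgr⟩ :=
          transfer_growth hs hf hl hl0 V hV (by omega) (h3 hX2)
        have h4 := ih (s := fun i => s (i + 1)) (fun i j hij => hs (by omega)) hg (b + 1) V' hV'
          (by omega)
        rw [hgr] at h4
        have h5 : ∑ j ∈ Finset.range (b + 1), tau s (n + 1) (d + j)
            = ∑ j ∈ Finset.range (b + 1), tau (fun i => s (i + 1)) n (d - s 0 + j) + (b + 1) := by
          have h6 : ∀ j ∈ Finset.range (b + 1), tau s (n + 1) (d + j)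
              = tau (fun i => s (i + 1)) n (d - s 0 + j) + 1 := by
            intro j _
            rw [tau_shift (n := n) (show s 0 ≤ d + j by omega)]
            congr 2
            omega
          rw [Finset.sum_congr rfl h6, Finset.sum_add_distrib, Finset.sum_const,
            Finset.card_range, smul_eq_mul, mul_one]
        rw [h5]
        have h7 : (b + 1) * (n + 1) = (b + 1) * n + (b + 1) := by ring
        rw [h7]
        omega
      · set x := qd (pI f (n + 1)) X with hx
        set w := qd (pI f (n + 1)) W with hw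
        have hxw : x + w = b + 1 := by omega
        have hw0 : 0 < w := by omega
        have hbb : (b + 1) * (b + 1 - 1) = x * (x - 1) + w * (w - 1) + 2 * (x * w) := by
          obtain ⟨x', hx'⟩ : ∃ x', x = x' + 1 := ⟨x - 1, by omega⟩
          obtain ⟨w', hw'⟩ : ∃ w', w = w' + 1 := ⟨w - 1, by omega⟩
          have : b = x' + w' + 1 := by omega
          rw [hx', hw', this]
          simp only [Nat.add_sub_cancel]
          ring
        have h4 := iha x (by omega) X hX hx.symm
        have h6 := iha w (by omega) W hW hw.symm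
        have h7 : (b + 1) * (n + 1) = x * (n + 1) + w * (n + 1) := by
          rw [← hxw]; ring
        have h8 : ∑ j ∈ Finset.range x, tau s (n + 1) (d + j)
            + ∑ j ∈ Finset.range w, tau s (n + 1) (d + 1 + j)
            ≤ ∑ j ∈ Finset.range (b + 1), tau s (n + 1) (d + j) := by
          rw [← hxw, Finset.sum_range_add]
          apply Nat.add_le_add_left
          apply Finset.sum_le_sum
          intro j _
          apply tau_mono
          omega
        rw [h7, hbb]
        omega

theorem redD {k : Type} [Field k] {n c : ℕ} (hc : c ≤ n) {s : ℕ → ℕ} (hs : Monotone s)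
    {f : Fin c → MvPolynomial (Fin n) k} (hf : CI s f) {e : ℕ} (hbig : ∀ i, c ≤ i → e + 1 ≤ s i)
    (V : Submodule k (MvPolynomial (Fin n) k)) (hV : V ≤ homogeneousSubmodule (Fin n) k e)
    {a : ℕ} (hq : qd (pI f c) V = a) :
    2 * (a * n) ≤ 2 * qd (pI f c) (S1 k n * V) + 2 * ∑ j ∈ Finset.range a, tau s n (e + j)
      + a * (a - 1) := by
  obtain ⟨F, W, hF, hW, h4, h5⟩ := reduce hc hf hbig V hV
  have := mainD n hs hF a W hW (by omega)
  omega

end Pool.Agent.EGH10
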