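import Pool.Agent.EGH10.MainD

/-!
# The growth bound with the reduced error
-/

set_option autoImplicit false

namespace Pool.Agent.EGH10

open MvPolynomial Pool.Agent.EGH2

/-- the jumps of `tau` after `d` -/
def dl (s : ℕ → ℕ) (n a d : ℕ) : ℕ :=
  ∑ j ∈ Finset.range a, (tau s n (d + j) - tau s n d)

theorem dl_eq (s : ℕ → ℕ) (n a d : ℕ) :
    ∑ j ∈ Finset.range a, tau s n (d + j) = dl s n a d + a * tau s n d := by
  unfold dl
  have h : ∀ j ∈ Finset.range a, tau s n (d + j) = (tau s n (d + j) - tau s n d) + tau s n d := by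
    intro j _
    have := tau_mono s n (show d ≤ d + j by omega)
    omega
  rw [Finset.sum_congr rfl h, Finset.sum_add_distrib, Finset.sum_const, Finset.card_range,
    smul_eq_mul]

theorem dl_split (s : ℕ → ℕ) (n x w d : ℕ) (hx : 0 < x) :
    dl s n x d + dl s n w (d + 1) + w * tau s n (d + 1) ≤ dl s n (x + w) d + w * tau s n d := by
  have h1 := dl_eq s n x d
  have h2 := dl_eq s n w (d + 1)
  have h3 := dl_eq s n (x + w) d
  have h4 : ∑ j ∈ Finset.range x, tau s n (d + j) + ∑ j ∈ Finset.range w, tau s n (d + 1 + j)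
      ≤ ∑ j ∈ Finset.range (x + w), tau s n (d + j) := by
    rw [Finset.sum_range_add]
    apply Nat.add_le_add_left
    apply Finset.sum_le_sum
    intro j _
    apply tau_mono
    omega
  rw [h1, h2, h3] at h4
  have h5 : (x + w) * tau s n d = x * tau s n d + w * tau s n d := by ring
  omega

theorem dl_mono (s : ℕ → ℕ) (n d : ℕ) {x y : ℕ} (h : x ≤ y) : dl s n x d ≤ dl s n y d := by
  unfold dl
  apply Finset.sum_le_sum_of_subset
  exact Finset.range_mono h

theorem mainE {K : Type} [Field K] [IsAlgClosed K] (n : ℕ) : ∀ {s : ℕ → ℕ}, Monotone s →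
    ∀ {f : Fin n → MvPolynomial (Fin n) K}, CI s f → ∀ (a : ℕ) {d : ℕ}
    (V : Submodule K (MvPolynomial (Fin n) K)), V ≤ homogeneousSubmodule (Fin n) K d →
    qd (pI f n) V = a →
    2 * (a * n) ≤ 2 * qd (pI f n) (S1 K n * V) + 2 * (a * tau s n d)
      + 2 * (dl s n a d - 1) + a * (a - 1) := by
  induction n with
  | zero =>
    intro s hs f hf a d V hV hq
    simp
  | succ n ih =>
    intro s hs f hf a
    induction a using Nat.strong_induction_on with
    | _ a iha =>
    intro d V hV hq
    rcases Nat.eq_zero_or_pos a with ha0 | ha0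
    · subst ha0
      simp
    obtain ⟨b, rfl⟩ : ∃ b, a = b + 1 := ⟨a - 1, by omega⟩
    rcases zd_cases (pI f (n + 1)) V hV with hz | ⟨l, hl, hl0, X, W, hXV, hX, hW, hX0, h1, h2, h3⟩
    · by_cases ht0 : tau s (n + 1) d = 0
      · have h4 : d < s 0 := by
          have h5 := lt_sg_of_tau_lt (s := s) (c := n + 1) (e := d) (t := 1) (by omega) (by omega)
          rw [show (1 : ℕ) = 0 + 1 from rfl, sg_succ, sg_zero] at h5
          omega
        have h5 := low_growth hs hf h4 b V hV hz hq
        have h6 := sum_id b
        rw [ht0]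
        have h7 : (b + 1) * (b + 1 - 1) = b * (b + 1) := by
          rw [Nat.add_sub_cancel]; ring
        rw [h7, ← h6]
        have h8 : (b + 1) * (n + 1) = (n + 1) * (b + 1) := by ring
        rw [h8]
        simp only [mul_zero]
        omega
      · have h5 := zdf_growth hs hf b V hV hz hq
        have h6 : ∑ j ∈ Finset.range b, (j + 1 + tau s (n + 1) (d + (j + 1)))
            + tau s (n + 1) d = ∑ j ∈ Finset.range b, (j + 1) +
              (dl s (n + 1) (b + 1) d + (b + 1) * tau s (n + 1) d) := by
          rw [← dl_eq, Finset.sum_add_distrib, Finset.sum_range_succ' _ b, add_zero d, add_assoc]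
        have h7 : (b + 1) * (b + 1 - 1) = 2 * ∑ j ∈ Finset.range b, (j + 1) := by
          rw [sum_id, Nat.add_sub_cancel]; ring
        have h8 : (b + 1) * (n + 1) = (n + 1) * (b + 1) := by ring
        rw [h7, h8]
        omega
    · by_cases hX2 : qd (pI f (n + 1)) X = qd (pI f (n + 1)) V
      · obtain ⟨hs0, g, V', hg, hV', hq', hgr⟩ :=
          transfer_growth hs hf hl hl0 V hV (by omega) (h3 hX2)
        have h4 := ih (s := fun i => s (i + 1)) (fun i j hij => hs (by omega)) hg (b + 1) V' hV'
          (by omega)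
        rw [hgr] at h4
        have h5 : dl s (n + 1) (b + 1) d = dl (fun i => s (i + 1)) n (b + 1) (d - s 0) := by
          unfold dl
          apply Finset.sum_congr rfl
          intro j _
          rw [tau_shift (n := n) (show s 0 ≤ d + j by omega),
            tau_shift (n := n) (show s 0 ≤ d by omega)]
          have e1 : d + j - s 0 = d - s 0 + j := by omega
          rw [e1]
          omega
        rw [h5, tau_shift (n := n) (show s 0 ≤ d by omega)]
        have h7 : (b + 1) * (n + 1) = (b + 1) * n + (b + 1) := by ring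
        have h8 : (b + 1) * (tau (fun i => s (i + 1)) n (d - s 0) + 1)
            = (b + 1) * tau (fun i => s (i + 1)) n (d - s 0) + (b + 1) := by ring
        rw [h7, h8]
        omega
      · set x := qd (pI f (n + 1)) X with hx
        set w := qd (pI f (n + 1)) W with hw
        have hxw : x + w = b + 1 := by omega
        have hw0 : 0 < w := by omega
        have hbb : (b + 1) * (b + 1 - 1) = x * (x - 1) + w * (w - 1) + 2 * (x * w) := by
          obtain ⟨x', hx'⟩ : ∃ x', x = x' + 1 := ⟨x - 1, by omega⟩
          obtain ⟨w', hw'⟩ : ∃ w', w = w' + 1 := ⟨w - 1, by omega⟩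
          have : b = x' + w' + 1 := by omega
          rw [hx', hw', this]
          simp only [Nat.add_sub_cancel]
          ring
        have h4 := iha x (by omega) X hX hx.symm
        have h6 := iha w (by omega) W hW hw.symm
        have h7 : (b + 1) * (n + 1) = x * (n + 1) + w * (n + 1) := by
          rw [← hxw]; ring
        have h8 := dl_split s (n + 1) x w d hX0
        have h9 : (b + 1) * tau s (n + 1) d = x * tau s (n + 1) d + w * tau s (n + 1) d := by
          rw [← hxw]; ring
        have h10 := dl_mono s (n + 1) d (show x ≤ x + w by omega)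
        have h11 : w * tau s (n + 1) (d + 1) ≤ w * tau s (n + 1) d + w := by
          calc w * tau s (n + 1) (d + 1) ≤ w * (tau s (n + 1) d + 1) :=
                Nat.mul_le_mul_left w (tau_add_le hs (n + 1) d 1)
            _ = w * tau s (n + 1) d + w := by ring
        have h12 : w ≤ x * w := Nat.le_mul_of_pos_left w hX0
        rw [h7, hbb, h9, ← hxw]
        omega

theorem redE {k : Type} [Field k] {n c : ℕ} (hc : c ≤ n) {s : ℕ → ℕ} (hs : Monotone s)
    {f : Fin c → MvPolynomial (Fin n) k} (hf : CI s f) {e : ℕ} (hbig : ∀ i, c ≤ i → e + 1 ≤ s i)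
    (V : Submodule k (MvPolynomial (Fin n) k)) (hV : V ≤ homogeneousSubmodule (Fin n) k e)
    {a : ℕ} (hq : qd (pI f c) V = a) :
    2 * (a * n) ≤ 2 * qd (pI f c) (S1 k n * V) + 2 * (a * tau s n e)
      + 2 * (dl s n a e - 1) + a * (a - 1) := by
  obtain ⟨F, W, hF, hW, h4, h5⟩ := reduce hc hf hbig V hV
  have := mainE n hs hF a W hW (by omega)
  omega

end Pool.Agent.EGH10
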